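import Mathlib

open Finset

namespace Pool.Agent.Results.MP_f96d9d_nt.Seven

/-- The generalized central trinomial coefficient `T_n(b, c)`. -/
def T (n : ℕ) (b c : ℤ) : ℤ :=
  ∑ j ∈ range (n / 2 + 1), n.choose (2 * j) * (2 * j).choose j * c ^ j * b ^ (n - 2 * j)

/-- The sum over `k < p` of `T_k(b, 49) ^ 3 / m ^ k`. -/
def S (p : ℕ) (b : ℤ) (m : ℚ) : ℚ := ∑ k ∈ range p, (T k b 49 : ℚ) ^ 3 / m ^ k

/-- `x - y` lies in `p ^ 2 ℤ_(p)`. -/
def Cong (p : ℕ) (x y : ℚ) : Prop := ¬ p ∣ ((x - y) / p ^ 2).den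

theorem result :
    (¬ ∀ p : ℕ, p.Prime → 3 < p → p % 4 = 3 → Cong p (S p 18 4096) 0) ∧
    (¬ ∀ p : ℕ, p.Prime → 3 < p → (p % 8 = 5 ∨ p % 8 = 7) →
      Cong p (jacobiSym 6 p * S p 10 1728) 0) := by
  refine ⟨fun h => h 7 (by norm_num) (by norm_num) rfl (by decide +kernel), fun h => ?_⟩
  have := h 7 (by norm_num) (by norm_num) (Or.inr rfl)
  have e : jacobiSym 6 7 = -1 := by norm_num
  rw [e] at this
  exact this (by decide +kernel)

end Pool.Agent.Results.MP_f96d9d_nt.Seven
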